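import Pool.Agent.D0H37.CB.Fin

set_option autoImplicit false

/-!
The members of a club with prescribed exponents.
-/

open scoped Classical
open Finset

namespace Pool.Agent.D0H37.CP

open Pool.Agent.D0H37.CB (sig_gt sig_pos sig_le)

/-- the members `A M` of `S` with `M` prime to `A`, at most `s` prime factors of `M`, at most `J` of
them with an exponent different from the one prescribed by `f`, and `σ(M) < (t + 1) M` -/
noncomputable def Cf (S : Finset ℕ) (f : ℕ → ℕ) (A s J t : ℕ) : Finset ℕ :=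
  S.filter fun N => ∃ M, N = A * M ∧ A.Coprime M ∧ M.primeFactors.card ≤ s ∧
    (M.primeFactors.filter fun p => M.factorization p ≠ f p).card ≤ J ∧
    ∑ d ∈ M.divisors, d < (t + 1) * M

theorem cf_mono {S : Finset ℕ} {f : ℕ → ℕ} {A s J t t' : ℕ} (h : t ≤ t') :
    Cf S f A s J t ⊆ Cf S f A s J t' := by
  intro N hN
  unfold Cf at hN ⊢
  rw [mem_filter] at hN ⊢
  obtain ⟨h1, M, h2, h3, h4, h5, h6⟩ := hN
  exact ⟨h1, M, h2, h3, h4, h5, h6.trans_le (Nat.mul_le_mul_right _ (by omega))⟩

/-- the step of the decoding -/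
theorem child {S : Finset ℕ} {f : ℕ → ℕ} {A s J N M p k K : ℕ} (hNS : N ∈ S) (hN0 : N ≠ 0)
    (hK : ∀ p ∈ N.primeFactors, N.factorization p ≠ f p → N.factorization p ≤ K)
    (hNM : N = A * M) (hcop : A.Coprime M) (hMs : M.primeFactors.card ≤ s)
    (hMJ : (M.primeFactors.filter fun p => M.factorization p ≠ f p).card ≤ J)
    (hk : ∑ d ∈ M.divisors, d ≤ (k + 1) * M) (hp : p.Prime) (hpM : p ∣ M) :
    N ∈ Cf S f (A * p ^ f p) (s - 1) J k ∨
    (1 ≤ J ∧ ∃ e ∈ Icc 1 K, N ∈ Cf S f (A * p ^ e) (s - 1) (J - 1) k) := by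
  have hM0 : M ≠ 0 := by rintro rfl; simp at hNM; exact hN0 hNM
  have hA0 : A ≠ 0 := by rintro rfl; simp at hNM; exact hN0 hNM
  obtain ⟨e, M', hnd, hM⟩ := Nat.exists_eq_pow_mul_and_not_dvd hM0 p hp.ne_one
  have he : 1 ≤ e := by
    by_contra hcon
    have : e = 0 := by omega
    subst this
    rw [pow_zero, one_mul] at hM
    rw [hM] at hpM
    exact hnd hpM
  have hM'0 : M' ≠ 0 := by rintro rfl; simp at hM; exact hM0 hM
  have hcp : (p ^ e).Coprime M' := Nat.Coprime.pow_left e ((Nat.Prime.coprime_iff_not_dvd hp).2 hnd)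
  have hpf : M.primeFactors = insert p M'.primeFactors := by
    rw [hM, Nat.primeFactors_mul (pow_ne_zero _ hp.ne_zero) hM'0,
      Nat.primeFactors_prime_pow (by omega) hp]
    rfl
  have hpn : p ∉ M'.primeFactors := fun hmem => hnd (Nat.dvd_of_mem_primeFactors hmem)
  have hfac : M.factorization = (p ^ e).factorization + M'.factorization := by
    rw [hM]
    exact Nat.factorization_mul (pow_ne_zero _ hp.ne_zero) hM'0
  have hfp : M.factorization p = e := by
    rw [hfac, Finsupp.add_apply, hp.factorization_pow, Finsupp.single_eq_same,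
      Nat.factorization_eq_zero_of_not_dvd hnd, add_zero]
  have hfq : ∀ q ∈ M'.primeFactors, M.factorization q = M'.factorization q := by
    intro q hq
    have hqp : q ≠ p := by rintro rfl; exact hpn hq
    rw [hfac, Finsupp.add_apply, hp.factorization_pow, Finsupp.single_apply, if_neg (Ne.symm hqp),
      zero_add]
  have hflt : (M'.primeFactors.filter fun q => M'.factorization q ≠ f q) =
      (M'.primeFactors.filter fun q => M.factorization q ≠ f q) :=
    filter_congr fun q hq => by rw [hfq q hq]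
  have hcard : M'.primeFactors.card ≤ s - 1 := by
    rw [hpf, card_insert_of_notMem hpn] at hMs
    omega
  have hpA : ¬ p ∣ A := fun h => by
    have h1 := Nat.dvd_gcd h hpM
    rw [Nat.Coprime] at hcop
    rw [hcop] at h1
    exact hp.one_lt.ne' (Nat.dvd_one.1 h1)
  have hNp : N.factorization p = e := by
    rw [hNM, Nat.factorization_mul hA0 hM0, Finsupp.add_apply,
      Nat.factorization_eq_zero_of_not_dvd hpA, hfp, zero_add]
  have hcopA : (A * p ^ e).Coprime M' := by
    apply Nat.Coprime.mul_left _ hcp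
    rw [hM] at hcop
    exact Nat.Coprime.coprime_mul_left_right hcop
  have hsig : ∑ d ∈ M'.divisors, d < (k + 1) * M' := by
    have h3 : ∑ d ∈ M.divisors, d = (∑ d ∈ (p ^ e).divisors, d) * ∑ d ∈ M'.divisors, d := by
      rw [hM]
      exact Nat.Coprime.sum_divisors_mul hcp
    have hpe0 : p ^ e ≠ 0 := pow_ne_zero _ hp.ne_zero
    have hpe1 : p ^ e ≠ 1 := by
      intro h4
      have := Nat.one_lt_pow (by omega : e ≠ 0) hp.one_lt
      omega
    have h4 := sig_gt hpe0 hpe1
    have h5 := sig_pos hM'0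
    have h6 : p ^ e * ∑ d ∈ M'.divisors, d < p ^ e * ((k + 1) * M') := by
      calc p ^ e * ∑ d ∈ M'.divisors, d < (∑ d ∈ (p ^ e).divisors, d) * ∑ d ∈ M'.divisors, d :=
            Nat.mul_lt_mul_of_pos_right h4 h5
        _ = ∑ d ∈ M.divisors, d := h3.symm
        _ ≤ (k + 1) * M := hk
        _ = p ^ e * ((k + 1) * M') := by rw [hM]; ring
    exact lt_of_mul_lt_mul_left h6 (Nat.zero_le _)
  have hNeq : N = A * p ^ e * M' := by rw [hNM, hM, mul_assoc]
  by_cases hef : e = f p
  · left
    rw [← hef]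
    unfold Cf
    rw [mem_filter]
    refine ⟨hNS, M', hNeq, hcopA, hcard, ?_, hsig⟩
    rw [hpf, filter_insert, if_neg (not_not.2 (hfp.trans hef))] at hMJ
    rw [hflt]
    exact hMJ
  · right
    rw [hpf, filter_insert, if_pos (by rw [hfp]; exact hef),
      card_insert_of_notMem (by rw [mem_filter]; exact fun h => hpn h.1)] at hMJ
    refine ⟨by omega, e, ?_, ?_⟩
    · rw [mem_Icc]
      refine ⟨he, ?_⟩
      have hpN : p ∈ N.primeFactors :=
        Nat.mem_primeFactors.2 ⟨hp, by rw [hNM]; exact Dvd.dvd.mul_left hpM A, hN0⟩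
      have := hK p hpN (by rw [hNp]; exact hef)
      rwa [hNp] at this
    · unfold Cf
      rw [mem_filter]
      refine ⟨hNS, M', hNeq, hcopA, hcard, ?_, hsig⟩
      rw [hflt]
      omega

/-- the set of the possible continuations -/
noncomputable def Nx (S : Finset ℕ) (f : ℕ → ℕ) (K A s J t p : ℕ) : Finset ℕ :=
  Cf S f (A * p ^ f p) (s - 1) J t ∪
    (if 1 ≤ J then (Icc 1 K).biUnion fun e => Cf S f (A * p ^ e) (s - 1) (J - 1) t else ∅)

theorem mem_nx {S : Finset ℕ} {f : ℕ → ℕ} {A s J N M p k K : ℕ} (hNS : N ∈ S) (hN0 : N ≠ 0)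
    (hK : ∀ p ∈ N.primeFactors, N.factorization p ≠ f p → N.factorization p ≤ K)
    (hNM : N = A * M) (hcop : A.Coprime M) (hMs : M.primeFactors.card ≤ s)
    (hMJ : (M.primeFactors.filter fun p => M.factorization p ≠ f p).card ≤ J)
    (hk : ∑ d ∈ M.divisors, d ≤ (k + 1) * M) (hp : p.Prime) (hpM : p ∣ M) :
    N ∈ Nx S f K A s J k p := by
  unfold Nx
  rw [mem_union]
  rcases child hNS hN0 hK hNM hcop hMs hMJ hk hp hpM with h | ⟨hJ, e, he, h⟩
  · exact Or.inl h
  · right
    rw [if_pos hJ, mem_biUnion]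
    exact ⟨e, he, h⟩

theorem card_nx {S : Finset ℕ} {f : ℕ → ℕ} {K s P : ℕ} (hs : 1 ≤ s) (A J t p : ℕ)
    (ih : ∀ A J t : ℕ, (Cf S f A (s - 1) J t).card ≤ (1 + (s - 1) * K) ^ J * P ^ (t - 1)) :
    (Nx S f K A s J t p).card ≤ (1 + s * K) ^ J * P ^ (t - 1) := by
  unfold Nx
  refine (card_union_le _ _).trans ?_
  obtain ⟨u, rfl⟩ : ∃ u, s = u + 1 := ⟨s - 1, by omega⟩
  rw [Nat.add_sub_cancel] at ih ⊢
  have h1 := ih (A * p ^ f p) J t
  split_ifs with hJ
  · obtain ⟨j, rfl⟩ : ∃ j, J = j + 1 := ⟨J - 1, by omega⟩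
    rw [Nat.add_sub_cancel]
    have h2 : ((Icc 1 K).biUnion fun e => Cf S f (A * p ^ e) u j t).card ≤
        K * ((1 + u * K) ^ j * P ^ (t - 1)) := by
      refine card_biUnion_le.trans ((sum_le_sum fun e _ => ih (A * p ^ e) j t).trans ?_)
      rw [sum_const, Nat.card_Icc, smul_eq_mul, Nat.add_sub_cancel]
    have h3 : (1 + u * K) ^ (j + 1) * P ^ (t - 1) + K * ((1 + u * K) ^ j * P ^ (t - 1)) =
        (1 + u * K) ^ j * (1 + (u + 1) * K) * P ^ (t - 1) := by
      rw [pow_succ]
      ring
    calc _ ≤ (1 + u * K) ^ (j + 1) * P ^ (t - 1) + K * ((1 + u * K) ^ j * P ^ (t - 1)) :=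
          add_le_add h1 h2
      _ = (1 + u * K) ^ j * (1 + (u + 1) * K) * P ^ (t - 1) := h3
      _ ≤ (1 + (u + 1) * K) ^ j * (1 + (u + 1) * K) * P ^ (t - 1) := by
          apply Nat.mul_le_mul_right
          apply Nat.mul_le_mul_right
          apply Nat.pow_le_pow_left
          nlinarith
      _ = _ := by rw [pow_succ]
  · rw [card_empty, add_zero]
    refine h1.trans (Nat.mul_le_mul_right _ (Nat.pow_le_pow_left ?_ _))
    nlinarith

/-- **the number of the members** -/
theorem card_cf {S : Finset ℕ} {a b : ℕ} (hb : 0 < b)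
    (hS : ∀ N ∈ S, N ≠ 0 ∧ b * ∑ d ∈ N.divisors, d = a * N) {f : ℕ → ℕ} {k K : ℕ} (hk : 1 ≤ k)
    (hK : ∀ N ∈ S, ∀ p ∈ N.primeFactors, N.factorization p ≠ f p → N.factorization p ≤ K) :
    ∀ s : ℕ, s ≤ k → ∀ A J t : ℕ,
      (Cf S f A s J t).card ≤ (1 + s * K) ^ J * (Nat.primeCounting (k + 1)) ^ (t - 1) := by
  obtain ⟨P, hP⟩ : ∃ P, P = Nat.primeCounting (k + 1) := ⟨_, rfl⟩
  rw [← hP]
  have hP1 : 1 ≤ P := by
    rw [hP]
    have h1 : Nat.primeCounting 2 ≤ Nat.primeCounting (k + 1) :=
      Nat.monotone_primeCounting (by omega)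
    have h2 : Nat.primeCounting 2 = 1 := by decide
    omega
  intro s
  induction s with
  | zero =>
    intro _ A J t
    have h1 : Cf S f A 0 J t ⊆ {A} := by
      intro N hN
      unfold Cf at hN
      rw [mem_filter] at hN
      obtain ⟨hNS, M, h1, _, h3, _, _⟩ := hN
      have h4 : M.primeFactors = ∅ := card_eq_zero.1 (by omega)
      rw [Nat.primeFactors_eq_empty] at h4
      rcases h4 with h4 | h4
      · rw [h4, mul_zero] at h1
        exact absurd h1 (hS N hNS).1
      · rw [mem_singleton, h1, h4, mul_one]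
    have h2 := card_le_card h1
    rw [card_singleton] at h2
    refine h2.trans ?_
    rw [zero_mul, add_zero, one_pow, one_mul]
    exact Nat.one_le_pow _ _ hP1
  | succ s ih =>
    intro hs A J t
    have ih' := ih (by omega)
    by_cases hne : ∃ N ∈ Cf S f A (s + 1) J t, N ≠ A
    · obtain ⟨N0, hN0, hN0A⟩ := hne
      have hdec : ∀ N ∈ Cf S f A (s + 1) J t, N ∈ S ∧ N ≠ 0 ∧ ∃ M, N = A * M ∧ A.Coprime M ∧
          M.primeFactors.card ≤ s + 1 ∧
          (M.primeFactors.filter fun p => M.factorization p ≠ f p).card ≤ J ∧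
          ∑ d ∈ M.divisors, d < (t + 1) * M ∧ M ≠ 0 ∧
          (b * ∑ d ∈ A.divisors, d) * ∑ d ∈ M.divisors, d = (a * A) * M := by
        intro N hN
        unfold Cf at hN
        rw [mem_filter] at hN
        obtain ⟨hNS, M, h1, h2, h3, h4, h5⟩ := hN
        obtain ⟨h7, h8⟩ := hS N hNS
        have hM0 : M ≠ 0 := by rintro rfl; simp at h1; exact h7 h1
        refine ⟨hNS, h7, M, h1, h2, h3, h4, h5, hM0, ?_⟩
        rw [h1, Nat.Coprime.sum_divisors_mul h2] at h8
        rw [mul_assoc, mul_assoc, h8]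
      obtain ⟨_, hN00, M0, hNM0, hcop0, _, _, hlt0, hM00, heq0⟩ := hdec N0 hN0
      have hA0 : A ≠ 0 := by rintro rfl; simp at hNM0; exact hN00 hNM0
      have hM01 : M0 ≠ 1 := by rintro rfl; simp at hNM0; exact hN0A hNM0
      have hU0 : b * ∑ d ∈ A.divisors, d ≠ 0 :=
        Nat.mul_ne_zero hb.ne' (sig_pos hA0).ne'
      have hV0 : a * A ≠ 0 := by
        intro h
        rw [h, zero_mul] at heq0
        have := Nat.mul_ne_zero hU0 (sig_pos hM00).ne'
        exact this heq0
      by_cases hdvd : (b * ∑ d ∈ A.divisors, d) ∣ a * A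
      · -- the quotient is an integer
        obtain ⟨c, hc⟩ := hdvd
        have hsig : ∀ M : ℕ, (b * ∑ d ∈ A.divisors, d) * ∑ d ∈ M.divisors, d = (a * A) * M →
            ∑ d ∈ M.divisors, d = c * M := by
          intro M hM
          apply Nat.eq_of_mul_eq_mul_left (Nat.pos_of_ne_zero hU0)
          rw [hM, hc, mul_assoc]
        have hM0pos : 0 < M0 := Nat.pos_of_ne_zero hM00
        have hc2 : 2 ≤ c := by
          have h1 := sig_gt hM00 hM01
          rw [hsig M0 heq0] at h1
          by_contra hcon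
          have : c ≤ 1 := by omega
          have := Nat.mul_le_mul_right M0 this
          omega
        have hct : c ≤ t := by
          rw [hsig M0 heq0] at hlt0
          have := lt_of_mul_lt_mul_right hlt0 (Nat.zero_le _)
          omega
        have hsub : Cf S f A (s + 1) J t ⊆ (Nat.primesBelow (s + 3)).biUnion fun p =>
            Nx S f K A (s + 1) J (t - 1) p := by
          intro N hN
          obtain ⟨hNS, hN0', M, h1, h2, h3, h4, h5, h7, h8⟩ := hdec N hN
          have hcM := hsig M h8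
          have hex : ∃ p ∈ M.primeFactors, p ≤ s + 2 := by
            by_contra hcon
            push Not at hcon
            have hle := sig_le (Y := s + 2) (by omega) h7 hcon
            rw [hcM] at hle
            have hle2 : c * M * (s + 2) ≤ M * (s + 2 + M.primeFactors.card) := by
              exact_mod_cast hle
            have hMpos : 0 < M := Nat.pos_of_ne_zero h7
            have h9 : M * (c * (s + 2)) ≤ M * (s + 2 + (s + 1)) := by
              calc M * (c * (s + 2)) = c * M * (s + 2) := by ring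
                _ ≤ M * (s + 2 + M.primeFactors.card) := hle2
                _ ≤ M * (s + 2 + (s + 1)) := Nat.mul_le_mul_left _ (by omega)
            have h10 := le_of_mul_le_mul_left h9 hMpos
            have h11 := Nat.mul_le_mul_right (s + 2) hc2
            omega
          obtain ⟨p, hpM, hp2⟩ := hex
          have hpp := Nat.prime_of_mem_primeFactors hpM
          rw [mem_biUnion]
          refine ⟨p, Nat.mem_primesBelow.2 ⟨by omega, hpp⟩, ?_⟩
          have hlt : ∑ d ∈ M.divisors, d ≤ ((t - 1) + 1) * M := by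
            rw [hcM]
            exact Nat.mul_le_mul_right _ (by omega)
          exact mem_nx hNS hN0' (hK N hNS) h1 h2 h3 h4 hlt hpp (Nat.dvd_of_mem_primeFactors hpM)
        have hcardP : (Nat.primesBelow (s + 3)).card ≤ P := by
          rw [hP, Nat.primesBelow_card_eq_primeCounting']
          exact Nat.monotone_primeCounting' (by omega)
        calc (Cf S f A (s + 1) J t).card ≤ ∑ p ∈ Nat.primesBelow (s + 3),
              (Nx S f K A (s + 1) J (t - 1) p).card := (card_le_card hsub).trans card_biUnion_le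
          _ ≤ ∑ _p ∈ Nat.primesBelow (s + 3), (1 + (s + 1) * K) ^ J * P ^ (t - 1 - 1) :=
              sum_le_sum fun p _ => card_nx (by omega) A J (t - 1) p ih'
          _ = (Nat.primesBelow (s + 3)).card * ((1 + (s + 1) * K) ^ J * P ^ (t - 1 - 1)) := by
              rw [sum_const, smul_eq_mul]
          _ ≤ P * ((1 + (s + 1) * K) ^ J * P ^ (t - 1 - 1)) := Nat.mul_le_mul_right _ hcardP
          _ = (1 + (s + 1) * K) ^ J * P ^ (t - 1) := by
              have : P ^ (t - 1) = P ^ (t - 1 - 1) * P := by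
                rw [← pow_succ]
                congr 1
                omega
              rw [this]
              ring
      · -- a prime is known
        rw [← Nat.factorization_prime_le_iff_dvd hU0 hV0] at hdvd
        push Not at hdvd
        obtain ⟨p, hpp, hlt⟩ := hdvd
        have hsub : Cf S f A (s + 1) J t ⊆ Nx S f K A (s + 1) J t p := by
          intro N hN
          obtain ⟨hNS, hN0', M, h1, h2, h3, h4, h5, h7, h8⟩ := hdec N hN
          have hpM : p ∣ M := by
            have h9 := congrArg (fun n => n.factorization p) h8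
            rw [Nat.factorization_mul hU0 (sig_pos h7).ne', Nat.factorization_mul hV0 h7] at h9
            simp only [Finsupp.add_apply] at h9
            by_contra hcon
            rw [Nat.factorization_eq_zero_of_not_dvd hcon] at h9
            omega
          exact mem_nx hNS hN0' (hK N hNS) h1 h2 h3 h4 h5.le hpp hpM
        exact (card_le_card hsub).trans (card_nx (by omega) A J t p ih')
    · push Not at hne
      have h1 : Cf S f A (s + 1) J t ⊆ {A} := fun N hN => mem_singleton.2 (hne N hN)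
      have h2 := card_le_card h1
      rw [card_singleton] at h2
      refine h2.trans ?_
      exact Nat.one_le_iff_ne_zero.2 (Nat.mul_ne_zero (pow_ne_zero _ (by omega))
        (pow_ne_zero _ (by omega)))

/-- the bound for a finite set of members -/
theorem card_fin {S : Finset ℕ} {a b : ℕ} (hb : 0 < b)
    (hS : ∀ N ∈ S, N ≠ 0 ∧ b * ∑ d ∈ N.divisors, d = a * N) {f : ℕ → ℕ} {J k K : ℕ} (hk : 1 ≤ k)
    (hK : ∀ N ∈ S, ∀ p ∈ N.primeFactors, N.factorization p ≠ f p → N.factorization p ≤ K)
    (hw : ∀ N ∈ S, N.primeFactors.card ≤ k)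
    (hJ : ∀ N ∈ S, (N.primeFactors.filter fun p => N.factorization p ≠ f p).card ≤ J) :
    S.card ≤ (1 + k * K) ^ J * (Nat.primeCounting (k + 1)) ^ (a / b - 1) := by
  have h1 : S ⊆ Cf S f 1 k J (a / b) := by
    intro N hN
    unfold Cf
    rw [mem_filter]
    refine ⟨hN, N, (one_mul N).symm, Nat.coprime_one_left N, hw N hN, hJ N hN, ?_⟩
    obtain ⟨hN0, h⟩ := hS N hN
    have h2 : a < (a / b + 1) * b := by
      have := Nat.lt_div_mul_add hb (a := a)
      nlinarith
    have h3 : b * ∑ d ∈ N.divisors, d < b * ((a / b + 1) * N) := by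
      rw [h]
      calc a * N < (a / b + 1) * b * N := Nat.mul_lt_mul_of_pos_right h2 (Nat.pos_of_ne_zero hN0)
        _ = b * ((a / b + 1) * N) := by ring
    exact lt_of_mul_lt_mul_left h3 (Nat.zero_le _)
  exact (card_le_card h1).trans (card_cf hb hS hk hK k le_rfl 1 J (a / b))

/-- the bound for an arbitrary set of members -/
theorem ncard_le {T : Set ℕ} {B : ℕ} (h : ∀ S : Finset ℕ, (S : Set ℕ) ⊆ T → S.card ≤ B) :
    T.Finite ∧ T.ncard ≤ B := by
  have hfin : T.Finite := by
    by_contra hcon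
    obtain ⟨S, hS1, hS2⟩ := Set.Infinite.exists_subset_card_eq hcon (B + 1)
    have := h S hS1
    omega
  refine ⟨hfin, ?_⟩
  rw [Set.ncard_eq_toFinset_card T hfin]
  exact h _ (by intro n hn; simpa using hn)

end Pool.Agent.D0H37.CP
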