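import Pool.Agent.D0H37.CP.Cf
import Pool.Agent.Helper256.KM.Mertens

set_option autoImplicit false

/-!
The members of a club with prescribed exponents: the bounds up to `x`.
-/

open scoped Classical
open Finset

namespace Pool.Agent.D0H37.CP

open Pool.Agent.Results.MP_f02ea4_nt.FewWithKPrimes (sp sp_mul sp_pos)
open Pool.Agent.D0H37.CB (tele)

theorem sig_prod {M : ℕ} (hM : M ≠ 0) : ((∑ d ∈ M.divisors, d : ℕ) : ℝ) ≤
    M * ∏ p ∈ M.primeFactors, ((p : ℝ) / (p - 1)) := by
  have h1 : ∑ d ∈ M.divisors, d = ∏ p ∈ M.primeFactors, sp p (M.factorization p) :=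
    Nat.sum_divisors hM
  have h2 : ∏ p ∈ M.primeFactors, p ^ (M.factorization p) = M :=
    Nat.prod_factorization_pow_eq_self hM
  have h3 : ∀ p ∈ M.primeFactors, (sp p (M.factorization p) : ℝ) ≤
      (p : ℝ) ^ (M.factorization p) * ((p : ℝ) / (p - 1)) := by
    intro p h
    have hp1 := (Nat.prime_of_mem_primeFactors h).two_le
    have hp2 : (2 : ℝ) ≤ p := by exact_mod_cast hp1
    have h4 := sp_mul p (M.factorization p) (by omega)
    have h5 : ((sp p (M.factorization p) : ℝ)) * ((p : ℝ) - 1) + 1 =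
        (p : ℝ) ^ (M.factorization p + 1) := by
      have : ((sp p (M.factorization p) * (p - 1) + 1 : ℕ) : ℝ) =
          ((p ^ (M.factorization p + 1) : ℕ) : ℝ) := by rw [h4]
      rw [Nat.cast_add, Nat.cast_mul, Nat.cast_sub (by omega)] at this
      push_cast at this
      linarith
    rw [← mul_div_assoc, ← pow_succ, le_div_iff₀ (by linarith)]
    linarith
  rw [h1]
  push_cast
  calc ∏ p ∈ M.primeFactors, (sp p (M.factorization p) : ℝ) ≤
        ∏ p ∈ M.primeFactors, ((p : ℝ) ^ (M.factorization p) * ((p : ℝ) / (p - 1))) :=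
        prod_le_prod (fun p _ => Nat.cast_nonneg _) h3
    _ = _ := by
        rw [prod_mul_distrib]
        congr 1
        exact_mod_cast h2

theorem card_log {n x : ℕ} (hn : n ≠ 0) (hx : n ≤ x) : n.primeFactors.card ≤ Nat.log 2 x := by
  apply Nat.le_log_of_pow_le (by norm_num)
  refine le_trans ?_ hx
  calc 2 ^ n.primeFactors.card = ∏ _p ∈ n.primeFactors, 2 := by rw [prod_const]
    _ ≤ ∏ p ∈ n.primeFactors, p :=
        prod_le_prod' fun p hp => (Nat.prime_of_mem_primeFactors hp).two_le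
    _ ≤ n := Nat.le_of_dvd (Nat.pos_of_ne_zero hn) (Nat.prod_primeFactors_dvd n)

theorem fact_log {n x p : ℕ} (hn : n ≠ 0) (hx : n ≤ x) (hp : p ∈ n.primeFactors) :
    n.factorization p ≤ Nat.log 2 x := by
  apply Nat.le_log_of_pow_le (by norm_num)
  refine le_trans ?_ hx
  calc 2 ^ n.factorization p ≤ p ^ n.factorization p :=
        Nat.pow_le_pow_left (Nat.prime_of_mem_primeFactors hp).two_le _
    _ ≤ n := Nat.le_of_dvd (Nat.pos_of_ne_zero hn) (Nat.ordProj_dvd n p)

theorem natlog_le {x : ℕ} (hx : 1 ≤ x) : (Nat.log 2 x : ℝ) * Real.log 2 ≤ Real.log x := by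
  have h1 : ((2 ^ Nat.log 2 x : ℕ) : ℝ) ≤ x := by
    exact_mod_cast Nat.pow_log_le_self 2 (by omega)
  have h2 := Real.log_le_log (by positivity) h1
  push_cast at h2
  rwa [Real.log_pow] at h2

theorem loglog_ge {x : ℕ} (hx : 16 ≤ x) : 2 ≤ Real.log x ∧ 1 ≤ Real.log (Real.log x) := by
  have h1 : Real.log 16 = 4 * Real.log 2 := by
    rw [show (16 : ℝ) = 2 ^ 4 by norm_num, Real.log_pow]
    norm_num
  have h2 : (16 : ℝ) ≤ x := by exact_mod_cast hx
  have h3 := Real.log_le_log (by norm_num) h2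
  have h4 := Real.log_two_gt_d9
  have h5 := Real.exp_one_lt_d9
  refine ⟨by linarith, ?_⟩
  have h6 : Real.exp 1 ≤ Real.log x := by linarith
  have h7 := Real.log_le_log (Real.exp_pos 1) h6
  rwa [Real.log_exp] at h7

theorem tele_sum (N : ℕ) (hN : 1 ≤ N) :
    ∑ n ∈ Icc 2 N, (1 : ℝ) / ((n : ℝ) * (n - 1)) = 1 - 1 / N := by
  induction N, hN using Nat.le_induction with
  | base => simp
  | succ N hN ih =>
    have h0 : (0 : ℝ) < N := by exact_mod_cast hN
    rw [Finset.sum_Icc_succ_top (by omega), ih]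
    push_cast
    rw [add_sub_cancel_right]
    have h1 : (N : ℝ) ≠ 0 := h0.ne'
    have h2 : (N : ℝ) + 1 ≠ 0 := by positivity
    rw [sub_add, sub_right_inj, div_sub_div _ _ h1 (mul_ne_zero h2 h1), div_eq_div_iff
      (mul_ne_zero h1 (mul_ne_zero h2 h1)) h2]
    ring

/-- `σ(n) ≤ C n log log x` for `n ≤ x` -/
theorem gron : ∃ C : ℝ, 1 ≤ C ∧ ∀ x : ℕ, 16 ≤ x → ∀ n : ℕ, n ≠ 0 → n ≤ x →
    ((∑ d ∈ n.divisors, d : ℕ) : ℝ) ≤ n * (C * Real.log (Real.log x)) := by
  obtain ⟨C0, hC0⟩ := Pool.Agent.Helper256.KM.mertens_inv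
  refine ⟨max 1 (6 * Real.exp (C0 + 1)), le_max_left _ _, fun x hx n hn hnx => ?_⟩
  obtain ⟨hL2, hLL⟩ := loglog_ge hx
  obtain ⟨L, hL⟩ : ∃ L, L = Real.log x := ⟨_, rfl⟩
  rw [← hL] at hL2 hLL ⊢
  obtain ⟨z, hz⟩ : ∃ z, z = ⌈L⌉₊ + 1 := ⟨_, rfl⟩
  have hz1 : L ≤ z := by
    rw [hz]
    push_cast
    have := Nat.le_ceil L
    linarith
  have hz2 : (z : ℝ) ≤ 2 * L := by
    rw [hz]
    push_cast
    have := Nat.ceil_lt_add_one (show 0 ≤ L by linarith)
    linarith
  have hz3 : 3 ≤ z := by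
    have h1 : (2 : ℝ) ≤ ⌈L⌉₊ := hL2.trans (Nat.le_ceil L)
    have h2 : 2 ≤ ⌈L⌉₊ := by exact_mod_cast h1
    omega
  have hz3' : (3 : ℝ) ≤ z := by exact_mod_cast hz3
  have hpf : ∀ p ∈ n.primeFactors, (0 : ℝ) ≤ (p : ℝ) / (p - 1) := by
    intro p hp
    have h1 : (2 : ℝ) ≤ p := by exact_mod_cast (Nat.prime_of_mem_primeFactors hp).two_le
    exact div_nonneg (by linarith) (by linarith)
  -- the large primes
  have hbig : ∏ p ∈ n.primeFactors.filter (fun p => ¬ p ≤ z), ((p : ℝ) / (p - 1)) ≤ 3 := by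
    have h1 := tele z (by omega) (n.primeFactors.filter (fun p => ¬ p ≤ z)) (fun p hp => by
      rw [mem_filter] at hp
      omega)
    refine h1.trans ?_
    have h2 : ((n.primeFactors.filter (fun p => ¬ p ≤ z)).card : ℝ) ≤ Nat.log 2 x := by
      exact_mod_cast (card_le_card (filter_subset _ _)).trans (card_log hn hnx)
    have h3 := natlog_le (show 1 ≤ x by omega)
    rw [← hL] at h3
    have h4 := Real.log_two_gt_d9
    have h5 : (0 : ℝ) ≤ Nat.log 2 x := Nat.cast_nonneg _
    rw [div_le_iff₀ (by linarith)]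
    nlinarith
  -- the small primes
  have hsmall : ∏ p ∈ n.primeFactors.filter (fun p => p ≤ z), ((p : ℝ) / (p - 1)) ≤
      Real.exp (C0 + 1) * Real.log z := by
    have h1 : ∀ p ∈ (Icc 1 z).filter Nat.Prime, (p : ℝ) / (p - 1) ≤
        Real.exp (1 / p + 1 / ((p : ℝ) * (p - 1))) := by
      intro p hp
      rw [mem_filter] at hp
      have h2 : (2 : ℝ) ≤ p := by exact_mod_cast hp.2.two_le
      have h3 : (1 : ℝ) / p + 1 / ((p : ℝ) * (p - 1)) = p / (p - 1) - 1 := by
        have h4 : (p : ℝ) - 1 ≠ 0 := by linarith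
        have h5 : (p : ℝ) ≠ 0 := by linarith
        field_simp
        ring
      rw [h3]
      have := Real.add_one_le_exp ((p : ℝ) / (p - 1) - 1)
      linarith
    have hsub : n.primeFactors.filter (fun p => p ≤ z) ⊆ (Icc 1 z).filter Nat.Prime := by
      intro p hp
      rw [mem_filter] at hp ⊢
      have h2 := Nat.prime_of_mem_primeFactors hp.1
      exact ⟨mem_Icc.2 ⟨h2.one_lt.le, hp.2⟩, h2⟩
    calc ∏ p ∈ n.primeFactors.filter (fun p => p ≤ z), ((p : ℝ) / (p - 1)) ≤
          ∏ p ∈ n.primeFactors.filter (fun p => p ≤ z),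
            Real.exp (1 / p + 1 / ((p : ℝ) * (p - 1))) :=
          prod_le_prod (fun p hp => hpf p (mem_filter.1 hp).1) fun p hp => h1 p (hsub hp)
      _ = Real.exp (∑ p ∈ n.primeFactors.filter (fun p => p ≤ z),
            ((1 : ℝ) / p + 1 / ((p : ℝ) * (p - 1)))) := (Real.exp_sum _ _).symm
      _ ≤ Real.exp (Real.log (Real.log z) + (C0 + 1)) := by
          apply Real.exp_le_exp.2
          have hnn : ∀ p ∈ (Icc 1 z).filter Nat.Prime,
              (0 : ℝ) ≤ (1 : ℝ) / p + 1 / ((p : ℝ) * (p - 1)) := by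
            intro p hp
            rw [mem_filter] at hp
            have h2 : (2 : ℝ) ≤ p := by exact_mod_cast hp.2.two_le
            have : (0 : ℝ) ≤ p * (p - 1) := mul_nonneg (by linarith) (by linarith)
            positivity
          refine (sum_le_sum_of_subset_of_nonneg hsub fun p hp _ => hnn p hp).trans ?_
          rw [sum_add_distrib]
          have h3 := (abs_le.1 (hC0 z hz3)).2
          have h4 : ∑ p ∈ (Icc 1 z).filter Nat.Prime, (1 : ℝ) / ((p : ℝ) * (p - 1)) ≤ 1 := by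
            refine le_trans (sum_le_sum_of_subset_of_nonneg (t := Icc 2 z) ?_ ?_) ?_
            · intro p hp
              rw [mem_filter, mem_Icc] at hp
              exact mem_Icc.2 ⟨hp.2.two_le, hp.1.2⟩
            · intro p hp _
              have h2 : (2 : ℝ) ≤ p := by exact_mod_cast (mem_Icc.1 hp).1
              have : (0 : ℝ) ≤ p * (p - 1) := mul_nonneg (by linarith) (by linarith)
              positivity
            · rw [tele_sum z (by omega)]
              have : (0 : ℝ) ≤ 1 / z := by positivity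
              linarith
          linarith
      _ = Real.exp (C0 + 1) * Real.log z := by
          rw [Real.exp_add, Real.exp_log (Real.log_pos (by linarith))]
          ring
  have hlz : Real.log z ≤ 2 * Real.log L := by
    have h1 := Real.log_le_log (by linarith) hz2
    rw [Real.log_mul (by norm_num) (by linarith)] at h1
    have h2 := Real.log_two_lt_d9
    linarith
  have hn0 : (0 : ℝ) ≤ n := Nat.cast_nonneg _
  refine (sig_prod hn).trans (mul_le_mul_of_nonneg_left ?_ hn0)
  rw [← prod_filter_mul_prod_filter_not n.primeFactors (fun p => p ≤ z)]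
  have hpos : (0 : ℝ) ≤ ∏ p ∈ n.primeFactors.filter (fun p => ¬ p ≤ z), ((p : ℝ) / (p - 1)) :=
    prod_nonneg fun p hp => hpf p (mem_filter.1 hp).1
  have he := Real.exp_pos (C0 + 1)
  calc _ ≤ (Real.exp (C0 + 1) * Real.log z) * 3 :=
        mul_le_mul hsmall hbig hpos (mul_nonneg he.le (Real.log_nonneg (by linarith)))
    _ ≤ (6 * Real.exp (C0 + 1)) * Real.log L := by nlinarith
    _ ≤ _ := mul_le_mul_of_nonneg_right (le_max_right _ _) (by linarith)

/-- the bound up to `x` -/
theorem card_x (f : ℕ → ℕ) {m J x : ℕ} (hm : 0 < m) (hx : 2 ≤ x) :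
    ((Icc 1 x).filter fun n => (∑ d ∈ n.divisors, d) * m = (∑ d ∈ m.divisors, d) * n ∧
      (n.primeFactors.filter fun p => n.factorization p ≠ f p).card ≤ J).card ≤
    (1 + Nat.log 2 x ^ 2) ^ J *
      (Nat.primeCounting (Nat.log 2 x + 1)) ^ ((∑ d ∈ m.divisors, d) / m - 1) := by
  rw [pow_two]
  apply card_fin hm
  · intro N hN
    rw [mem_filter, mem_Icc] at hN
    exact ⟨by omega, by rw [mul_comm]; exact hN.2.1⟩
  · exact Nat.log_pos (by norm_num) hx
  · intro N hN p hp _
    rw [mem_filter, mem_Icc] at hN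
    exact fact_log (by omega) hN.1.2 hp
  · intro N hN
    rw [mem_filter, mem_Icc] at hN
    exact card_log (by omega) hN.1.2
  · intro N hN
    rw [mem_filter] at hN
    exact hN.2.2

theorem pc_le (k : ℕ) : Nat.primeCounting (k + 1) ≤ k + 1 := by
  have h1 : Nat.primeCounting (k + 1) = (Nat.primesBelow (k + 2)).card := by
    rw [Nat.primesBelow_card_eq_primeCounting']
    rfl
  rw [h1]
  have h2 : Nat.primesBelow (k + 2) ⊆ Icc 1 (k + 1) := by
    intro p hp
    rw [Nat.mem_primesBelow] at hp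
    exact mem_Icc.2 ⟨hp.2.one_lt.le, by omega⟩
  have h3 := card_le_card h2
  rw [Nat.card_Icc] at h3
  omega

/-- the uniform bound -/
theorem card_unif : ∃ C : ℝ, ∀ (f : ℕ → ℕ) (m J x : ℕ), 0 < m → 16 ≤ x →
    ((((Icc 1 x).filter fun n => (∑ d ∈ n.divisors, d) * m = (∑ d ∈ m.divisors, d) * n ∧
      (n.primeFactors.filter fun p => n.factorization p ≠ f p).card ≤ J).card : ℕ) : ℝ) ≤
    (C * Real.log x) ^ (2 * (J : ℝ) + C * Real.log (Real.log x)) := by
  obtain ⟨C1, hC1, hg⟩ := gron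
  refine ⟨max 3 C1, fun f m J x hm hx => ?_⟩
  obtain ⟨C, hC⟩ : ∃ C, C = max 3 C1 := ⟨_, rfl⟩
  rw [← hC]
  have hC3 : 3 ≤ C := by rw [hC]; exact le_max_left _ _
  have hCC : C1 ≤ C := by rw [hC]; exact le_max_right _ _
  obtain ⟨hL2, hLL⟩ := loglog_ge hx
  obtain ⟨L, hL⟩ : ∃ L, L = Real.log x := ⟨_, rfl⟩
  have hKL := natlog_le (show 1 ≤ x by omega)
  rw [← hL] at hL2 hLL hKL ⊢
  have hbase : 1 ≤ C * L := by nlinarith
  by_cases hne : ((Icc 1 x).filter fun n =>
      (∑ d ∈ n.divisors, d) * m = (∑ d ∈ m.divisors, d) * n ∧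
      (n.primeFactors.filter fun p => n.factorization p ≠ f p).card ≤ J).Nonempty
  · obtain ⟨n, hn⟩ := hne
    rw [mem_filter, mem_Icc] at hn
    obtain ⟨⟨hn1, hnx⟩, hn2, _⟩ := hn
    have h1 := card_x f (J := J) hm (show 2 ≤ x by omega)
    obtain ⟨t, ht⟩ : ∃ t, t = (∑ d ∈ m.divisors, d) / m := ⟨_, rfl⟩
    obtain ⟨K, hK⟩ : ∃ K, K = Nat.log 2 x := ⟨_, rfl⟩
    rw [← ht, ← hK] at h1
    rw [← hK] at hKL
    -- the exponent
    have ht1 : (t : ℝ) ≤ C * Real.log L := by
      have h2 := hg x hx n (by omega) hnx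
      rw [← hL] at h2
      have h3 : t * m ≤ ∑ d ∈ m.divisors, d := by
        rw [ht]
        exact Nat.div_mul_le_self _ _
      have h4 : t * m * n ≤ (∑ d ∈ n.divisors, d) * m := by
        rw [hn2]
        exact Nat.mul_le_mul_right _ h3
      have h5 : t * n ≤ ∑ d ∈ n.divisors, d := by
        have : m * (t * n) ≤ m * ∑ d ∈ n.divisors, d := by
          calc m * (t * n) = t * m * n := by ring
            _ ≤ _ := h4
            _ = _ := by ring
        exact le_of_mul_le_mul_left this hm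
      have h6 : (t : ℝ) * n ≤ ((∑ d ∈ n.divisors, d : ℕ) : ℝ) := by exact_mod_cast h5
      have hn0 : (0 : ℝ) < n := by exact_mod_cast hn1
      have h7 : (n : ℝ) * t ≤ n * (C1 * Real.log L) := by linarith
      have h8 := le_of_mul_le_mul_left h7 hn0
      exact h8.trans (mul_le_mul_of_nonneg_right hCC (by linarith))
    have hK0 : (0 : ℝ) ≤ K := Nat.cast_nonneg _
    have hlog2 := Real.log_two_gt_d9
    have hKL2 : (K : ℝ) ≤ 3 / 2 * L := by nlinarith
    have hP : (Nat.primeCounting (K + 1) : ℝ) ≤ C * L := by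
      have h2 : (Nat.primeCounting (K + 1) : ℝ) ≤ K + 1 := by exact_mod_cast pc_le K
      nlinarith
    have hQ : (1 + (K : ℝ) ^ 2) ≤ (C * L) ^ 2 := by
      have h2 : (3 * L) ^ 2 ≤ (C * L) ^ 2 :=
        pow_le_pow_left₀ (by linarith) (mul_le_mul_of_nonneg_right hC3 (by linarith)) 2
      nlinarith
    have h2 : ((((Icc 1 x).filter fun n =>
        (∑ d ∈ n.divisors, d) * m = (∑ d ∈ m.divisors, d) * n ∧
        (n.primeFactors.filter fun p => n.factorization p ≠ f p).card ≤ J).card : ℕ) : ℝ) ≤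
        (1 + (K : ℝ) ^ 2) ^ J * (Nat.primeCounting (K + 1) : ℝ) ^ (t - 1) := by
      exact_mod_cast h1
    refine h2.trans ?_
    calc (1 + (K : ℝ) ^ 2) ^ J * (Nat.primeCounting (K + 1) : ℝ) ^ (t - 1) ≤
          ((C * L) ^ 2) ^ J * (C * L) ^ (t - 1) :=
          mul_le_mul (pow_le_pow_left₀ (by positivity) hQ _)
            (pow_le_pow_left₀ (by positivity) hP _) (by positivity) (by positivity)
      _ ≤ ((C * L) ^ 2) ^ J * (C * L) ^ t :=
          mul_le_mul_of_nonneg_left (pow_le_pow_right₀ hbase (by omega)) (by positivity)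
      _ = (C * L) ^ (2 * (J : ℝ) + (t : ℝ)) := by
          rw [← pow_mul, Real.rpow_add (by linarith)]
          congr 1
          · rw [← Real.rpow_natCast]
            push_cast
            rfl
          · rw [Real.rpow_natCast]
      _ ≤ (C * L) ^ (2 * (J : ℝ) + C * Real.log L) :=
          Real.rpow_le_rpow_of_exponent_le hbase (by linarith)
  · rw [not_nonempty_iff_eq_empty] at hne
    rw [hne, card_empty, Nat.cast_zero]
    exact Real.rpow_nonneg (by linarith) _

end Pool.Agent.D0H37.CP
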